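import Pool.Agent.Helper84.Kauf.PfaDefs

set_option autoImplicit false

/-!
# Main lemma for: PFA gives branches of names of trees
-/

open Cardinal Set

namespace Pool.Agent.Helper84.Kauf

/-! ## Facts on `ω₁` and `ω₂` -/

theorem mk_Iio_toType {k : Cardinal.{0}} (i : k.ord.ToType) : #(Iio i) < k := by
  have h := Cardinal.mk_Iio_lt i (by rw [mk_ord_toType, Ordinal.type_toType])
  rwa [mk_ord_toType] at h

theorem aleph_one_succ : aleph 1 = Order.succ ℵ₀ := Cardinal.succ_aleph0.symm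

theorem aleph_two_succ : aleph 2 = Order.succ (aleph 1) := by
  rw [Cardinal.succ_aleph, one_add_one_eq_two]

theorem K1_Iio (i : K1) : (Iio i).Countable := by
  have h : #(Iio i) < aleph 1 := mk_Iio_toType i
  rw [← Cardinal.le_aleph0_iff_set_countable]
  exact Order.lt_succ_iff.1 (h.trans_eq aleph_one_succ)

theorem countable_ub {K : Type} [LinearOrder K] {μ : Cardinal.{0}} (hμ : ℵ₀ ≤ μ) (h1 : μ < #K)
    (h2 : ∀ i : K, #(Iic i) ≤ μ) (S : Set K) (hS : S.Countable) : ∃ b, ∀ x ∈ S, x < b := by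
  by_contra hcon
  push Not at hcon
  have hcov : (univ : Set K) ⊆ ⋃ x ∈ S, Iic x := by
    intro b _
    obtain ⟨x, hx, hbx⟩ := hcon b
    exact mem_biUnion hx hbx
  have h3 : #(univ : Set K) ≤ #(⋃ x ∈ S, Iic x : Set K) := Cardinal.mk_le_mk_of_subset hcov
  have h4 : #(⋃ x ∈ S, Iic x : Set K) ≤ #S * ⨆ x : S, #(Iic x.1) := Cardinal.mk_biUnion_le _ _
  have h5 : (⨆ x : S, #(Iic x.1)) ≤ μ := ciSup_le' fun x => h2 x.1
  have h6 : #S * ⨆ x : S, #(Iic x.1) ≤ μ := by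
    refine (mul_le_mul' ((Cardinal.le_aleph0_iff_set_countable.2 hS).trans hμ) h5).trans ?_
    rw [Cardinal.mul_eq_self hμ]
  rw [mk_univ] at h3
  exact absurd (h3.trans (h4.trans h6)) (not_le.2 h1)

theorem mk_Iic_le {κ μ : Cardinal.{0}} (hμ : ℵ₀ ≤ μ) (hκ : κ = Order.succ μ) (i : κ.ord.ToType) :
    #(Iic i) ≤ μ := by
  have h : (Iic i : Set κ.ord.ToType) = insert i (Iio i) := Iio_insert.symm
  have h1 : #(Iio i) ≤ μ := Order.lt_succ_iff.1 ((mk_Iio_toType i).trans_eq hκ)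
  rw [h]
  refine (mk_insert_le).trans ?_
  refine (add_le_add h1 (Cardinal.one_le_aleph0.trans hμ)).trans ?_
  rw [Cardinal.add_eq_self hμ]

theorem K1_ub (S : Set K1) (hS : S.Countable) : ∃ b, ∀ x ∈ S, x < b := by
  refine countable_ub (le_refl ℵ₀) ?_ (fun i => mk_Iic_le le_rfl aleph_one_succ i) S hS
  rw [mk_ord_toType, aleph_one_succ]
  exact Order.lt_succ _

theorem K2_ub (S : Set K2) (hS : S.Countable) : ∃ b, ∀ x ∈ S, x < b := by
  refine countable_ub (Cardinal.aleph0_le_aleph 1) ?_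
    (fun i => mk_Iic_le (Cardinal.aleph0_le_aleph 1) aleph_two_succ i) S hS
  rw [mk_ord_toType, aleph_two_succ]
  exact Order.lt_succ _

/-- sequences of dependent choices -/
theorem exists_seq {W : Type} (R : ℕ → W → W → Prop) (h : ∀ k w, ∃ w', R k w w') (w₀ : W) :
    ∃ s : ℕ → W, s 0 = w₀ ∧ ∀ k, R k (s k) (s (k + 1)) := by
  choose F hF using h
  exact ⟨fun n => Nat.rec w₀ (fun k w => F k w) n, rfl, fun k => hF k _⟩

/-! ## The poset of partial solutions -/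

section

variable {D : Type} [Preorder D] {T : UData D} {m : ℕ}

/-- the part of a condition of the poset of partial solutions other than the condition of `D` -/
structure Core (T : UData D) (m : ℕ) where
  i : K1
  h : K1 → K2
  smono : ∀ j < i, ∀ k < i, j < k → h j < h k
  Q : Set (RCond T)
  g : RCond T → Nd × Fin m

instance : Preorder (Core T m) where
  le c' c := c.i ≤ c'.i ∧ (∀ j < c.i, c'.h j = c.h j) ∧ c.Q ⊆ c'.Q ∧ ∀ q ∈ c.Q, c'.g q = c.g q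
  le_refl c := ⟨le_rfl, fun _ _ => rfl, subset_rfl, fun _ _ => rfl⟩
  le_trans a b c h h' := ⟨h'.1.trans h.1, fun j hj =>
    (h.2.1 j (hj.trans_le h'.1)).trans (h'.2.1 j hj), h'.2.2.1.trans h.2.2.1,
    fun q hq => (h.2.2.2 q (h'.2.2.1 hq)).trans (h'.2.2.2 q hq)⟩

/-- the condition of `ECond D` given by a condition of `D` and a core -/
def Core.e (c : Core T m) (d : D) : ECond D := ⟨d, c.i, c.h, c.smono⟩

/-- replacing the height function -/
def Core.rep (c : Core T m) (e : ECond D) : Core T m := ⟨e.i, e.h, e.smono, c.Q, c.g⟩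

/-- the conditions `q` with exactly `n` new nodes and `e ≤ q` -/
def QS (X : Set (RCond T)) (f₀ : Finset (Nd × ℕ)) (n : ℕ) (e : ECond D) : Set (RCond T) :=
  {q | q ∈ X ∧ q.Ext f₀ n ∧ e ≤ q.toECond}

theorem QS_mono {X : Set (RCond T)} {f₀ : Finset (Nd × ℕ)} {n : ℕ} {e e' : ECond D} (h : e' ≤ e) :
    QS X f₀ n e ⊆ QS X f₀ n e' := fun _ hq => ⟨hq.1, hq.2.1, h.trans hq.2.2⟩

/-- `c` is a partial solution at `d` which can be extended to a solution on every finite set -/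
def Good (X : Set (RCond T)) (f₀ : Finset (Nd × ℕ)) (n : ℕ) (e₀ : ECond D) (d : D)
    (c : Core T m) : Prop :=
  c.e d ≤ e₀ ∧ c.Q ⊆ QS X f₀ n (c.e d) ∧ c.Q.Countable ∧
    ∀ e ≤ c.e d, ∀ Q : Set (RCond T), Q.Finite → Q ⊆ QS X f₀ n e →
      ∃ s, Solves f₀ m Q s ∧ ∀ q ∈ Q, q ∈ c.Q → s q = c.g q

/-- the chain with number `j` -/
def chain (c : Core T m) (j : Fin m) : Set Nd := {x | ∃ q ∈ c.Q, (c.g q).2 = j ∧ (c.g q).1 = x}

/-- the hypothesis that the main lemma fails -/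
structure Setup (X : Set (RCond T)) (f₀ : Finset (Nd × ℕ)) (n m : ℕ) (e₀ : ECond D) : Prop where
  closed : IsClosed1 D
  large : ∀ e ≤ e₀, ∀ A : Set Nd, A.Countable →
    ∃ q ∈ X, q.Ext f₀ n ∧ q.toECond ≤ e ∧ ∀ p ∈ q.f \ f₀, p.1 ∉ A
  solv : ∀ e ≤ e₀, ∀ Q : Set (RCond T), Q.Finite → Q ⊆ QS X f₀ n e → ∃ s, Solves f₀ m Q s

theorem solves_mono {f₀ : Finset (Nd × ℕ)} {Q Q' : Set (RCond T)} {s : RCond T → Nd × Fin m}
    (h : Q' ⊆ Q) (hs : Solves f₀ m Q s) : Solves f₀ m Q' s :=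
  ⟨fun q hq => hs.1 q (h hq), fun q hq q' hq' => hs.2 q (h hq) q' (h hq')⟩

theorem comp_symm {x y : Nd} (h : Nd.Comp x y) : Nd.Comp y x := by
  rcases h with h | h | h
  · exact Or.inl h.symm
  · exact Or.inr (Or.inr h)
  · exact Or.inr (Or.inl h)

theorem chain_mono {c c' : Core T m} (h : c' ≤ c) (j : Fin m) : chain c j ⊆ chain c' j := by
  rintro x ⟨q, hq, h1, h2⟩
  exact ⟨q, h.2.2.1 hq, by rw [h.2.2.2 q hq]; exact h1, by rw [h.2.2.2 q hq]; exact h2⟩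

theorem e_mono {c c' : Core T m} {d d' : D} (h : c' ≤ c) (hd : d' ≤ d) : c'.e d' ≤ c.e d :=
  ⟨hd, h.1, h.2.1⟩

variable {X : Set (RCond T)} {f₀ : Finset (Nd × ℕ)} {n : ℕ} {e₀ : ECond D} {d : D} {c : Core T m}

theorem Good.mono (h : Good X f₀ n e₀ d c) {d' : D} (hd : d' ≤ d) : Good X f₀ n e₀ d' c := by
  have he : c.e d' ≤ c.e d := e_mono le_rfl hd
  exact ⟨he.trans h.1, h.2.1.trans (QS_mono he), h.2.2.1, fun e hee => h.2.2.2 e (hee.trans he)⟩

theorem Good.rep (h : Good X f₀ n e₀ d c) {e : ECond D} (he : e ≤ c.e d) :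
    Good X f₀ n e₀ e.d (c.rep e) :=
  ⟨he.trans h.1, h.2.1.trans (QS_mono he), h.2.2.1, fun e' hee => h.2.2.2 e' (hee.trans he)⟩

theorem rep_le {e : ECond D} (he : e ≤ c.e d) : c.rep e ≤ c :=
  ⟨he.2.1, he.2.2, subset_rfl, fun _ _ => rfl⟩

theorem Good.node (h : Good X f₀ n e₀ d c) {q : RCond T} (hq : q ∈ c.Q) :
    ∃ p ∈ q.f \ f₀, p.1 = (c.g q).1 := by
  obtain ⟨s, hs, hg⟩ := h.2.2.2 (c.e d) le_rfl {q} (finite_singleton q)
    (singleton_subset_iff.2 (h.2.1 hq))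
  have := hs.1 q rfl
  rwa [hg q rfl hq] at this

theorem Good.comp (h : Good X f₀ n e₀ d c) {j : Fin m} {x y : Nd} (hx : x ∈ chain c j)
    (hy : y ∈ chain c j) : Nd.Comp x y := by
  obtain ⟨q, hq, hq1, hq2⟩ := hx
  obtain ⟨r, hr, hr1, hr2⟩ := hy
  obtain ⟨s, hs, hg⟩ := h.2.2.2 (c.e d) le_rfl {q, r} (by simp)
    (by rintro z (rfl | rfl); exacts [h.2.1 hq, h.2.1 hr])
  have := hs.2 q (by simp) r (by simp)
  rw [hg q (by simp) hq, hg r (by simp) hr, hq1, hr1, hq2, hr2] at this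
  exact this rfl

theorem Good.level (h : Good X f₀ n e₀ d c) {j : Fin m} {x : Nd} (hx : x ∈ chain c j) :
    (∃ k < c.i, x.1 = c.h k) ∧ T.U d x.1 x.2 := by
  obtain ⟨q, hq, hq1, hq2⟩ := hx
  obtain ⟨p, hp, hp1⟩ := h.node hq
  rw [hq2] at hp1
  obtain ⟨⟨k, hk, hk1⟩, hU⟩ := q.node p (Finset.mem_sdiff.1 hp).1
  have hle := (h.2.1 hq).2.2
  subst hp1
  refine ⟨⟨k, hk.trans_le hle.2.1, ?_⟩, T.mono _ _ _ _ hle.1 hU⟩
  rw [hk1]
  exact (hle.2.2 k hk).symm

/-- a new condition can be added to a partial solution -/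
theorem Good.insert_step (h : Good X f₀ n e₀ d c) {q : RCond T} (hq : q ∈ QS X f₀ n (c.e d))
    (hqc : q ∉ c.Q) :
    ∃ d' ≤ d, ∃ c' ≤ c, Good X f₀ n e₀ d' c' ∧ c'.Q = insert q c.Q := by
  classical
  by_contra hcon
  push Not at hcon
  have key : ∀ V : Finset (Nd × Fin m), ∃ e ≤ c.e d, ∃ Q : Set (RCond T), Q.Finite ∧
      Q ⊆ QS X f₀ n e ∧ q ∈ Q ∧ ∀ s, Solves f₀ m Q s → (∀ r ∈ Q, r ∈ c.Q → s r = c.g r) →
        s q ∉ V := by
    intro V
    induction V using Finset.induction_on with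
    | empty =>
      exact ⟨c.e d, le_rfl, {q}, finite_singleton q, singleton_subset_iff.2 hq, rfl,
        fun s _ _ => by simp⟩
    | insert v V hv ih =>
      obtain ⟨e, he, Q, hQf, hQs, hqQ, hQ⟩ := ih
      let c' : Core T m := ⟨e.i, e.h, e.smono, insert q c.Q, Function.update c.g q v⟩
      have hc'c : c' ≤ c := by
        refine ⟨he.2.1, he.2.2, subset_insert _ _, fun r hr => ?_⟩
        have : r ≠ q := fun hrq => hqc (hrq ▸ hr)
        simp [c', Function.update_of_ne this]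
      have hng : ¬ Good X f₀ n e₀ e.d c' := fun hg => hcon e.d he.1 c' hc'c hg rfl
      have h1 : c'.e e.d ≤ e₀ := he.trans h.1
      have h2 : c'.Q ⊆ QS X f₀ n (c'.e e.d) := by
        rintro r (rfl | hr)
        · exact QS_mono he hq
        · exact QS_mono he (h.2.1 hr)
      have h3 : c'.Q.Countable := h.2.2.1.insert q
      have h4 : ¬ ∀ e' ≤ c'.e e.d, ∀ Q : Set (RCond T), Q.Finite → Q ⊆ QS X f₀ n e' →
          ∃ s, Solves f₀ m Q s ∧ ∀ q ∈ Q, q ∈ c'.Q → s q = c'.g q :=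
        fun h4 => hng ⟨h1, h2, h3, h4⟩
      push Not at h4
      obtain ⟨e', he', Q', hQ'f, hQ's, hQ'⟩ := h4
      refine ⟨e', he'.trans he, Q ∪ Q', hQf.union hQ'f, union_subset (hQs.trans (QS_mono he')) hQ's,
        Or.inl hqQ, fun s hs hag hsv => ?_⟩
      rcases Finset.mem_insert.1 hsv with hsv | hsv
      · obtain ⟨r, hr, hrc, hne⟩ := hQ' s (solves_mono subset_union_right hs)
        apply hne
        rcases hrc with rfl | hrc
        · simp [c', hsv]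
        · have : r ≠ q := fun hrq => hqc (hrq ▸ hrc)
          simp only [c', Function.update_of_ne this]
          exact hag r (Or.inr hr) hrc
      · exact hQ s (solves_mono subset_union_left hs) (fun r hr => hag r (Or.inl hr)) hsv
  obtain ⟨e, he, Q, hQf, hQs, hqQ, hQ⟩ :=
    key ((((q.f \ f₀).image Prod.fst) ×ˢ (Finset.univ : Finset (Fin m))))
  obtain ⟨s, hs, hag⟩ := h.2.2.2 e he Q hQf hQs
  refine hQ s hs hag ?_
  obtain ⟨p, hp, hp1⟩ := hs.1 q hqQ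
  simp only [Finset.mem_product, Finset.mem_univ, and_true]
  exact Finset.mem_image.2 ⟨p, hp, hp1⟩

/-- least upper bounds of sequences of countable ordinals -/
theorem K1_sup (u : ℕ → K1) : ∃ b, (∀ k, u k ≤ b) ∧ ∀ j < b, ∃ k, j < u k := by
  obtain ⟨b₀, hb₀⟩ := K1_ub (range u) (countable_range u)
  have hne : {b : K1 | ∀ k, u k ≤ b}.Nonempty := ⟨b₀, fun k => (hb₀ _ ⟨k, rfl⟩).le⟩
  obtain ⟨b, hb, hmin⟩ := WellFounded.has_min (wellFounded_lt (α := K1)) _ hne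
  refine ⟨b, hb, fun j hj => ?_⟩
  by_contra hcon
  push Not at hcon
  exact hmin j hcon hj

/-- lower bounds of countable chains -/
theorem Good.limit {c : ℕ → Core T m} (hc : Antitone c) (h : ∀ k, Good X f₀ n e₀ d (c k)) :
    ∃ c', (∀ k, c' ≤ c k) ∧ Good X f₀ n e₀ d c' := by
  classical
  obtain ⟨i, hi, hi'⟩ := K1_sup fun k => (c k).i
  let hh : K1 → K2 := fun j =>
    if hj : ∃ k, j < (c k).i then (c (Nat.find hj)).h j else (c 0).h j
  let gg : RCond T → Nd × Fin m := fun q =>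
    if hq : ∃ k, q ∈ (c k).Q then (c (Nat.find hq)).g q else (c 0).g q
  have hhh : ∀ k, ∀ j < (c k).i, hh j = (c k).h j := by
    intro k j hj
    have hex : ∃ k, j < (c k).i := ⟨k, hj⟩
    simp only [hh, dif_pos hex]
    exact ((hc (Nat.find_min' hex hj)).2.1 j (Nat.find_spec hex)).symm
  have hgg : ∀ k, ∀ q ∈ (c k).Q, gg q = (c k).g q := by
    intro k q hq
    have hex : ∃ k, q ∈ (c k).Q := ⟨k, hq⟩
    simp only [gg, dif_pos hex]
    exact ((hc (Nat.find_min' hex hq)).2.2.2 q (Nat.find_spec hex)).symm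
  let c' : Core T m := ⟨i, hh, fun j hj k hk hjk => by
    obtain ⟨l, hl⟩ := hi' k hk
    rw [hhh l k hl, hhh l j (hjk.trans hl)]
    exact (c l).smono j (hjk.trans hl) k hl hjk, ⋃ k, (c k).Q, gg⟩
  have hle : ∀ k, c' ≤ c k := fun k =>
    ⟨hi k, hhh k, subset_iUnion (fun k => (c k).Q) k, hgg k⟩
  have he : ∀ k, c'.e d ≤ (c k).e d := fun k => e_mono (hle k) le_rfl
  refine ⟨c', hle, (he 0).trans (h 0).1, ?_, countable_iUnion fun k => (h k).2.2.1, ?_⟩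
  · exact iUnion_subset fun k => (h k).2.1.trans (QS_mono (he k))
  · intro e hee Q hQ hQs
    have hev : ∀ᶠ k in Filter.atTop, ∀ q ∈ Q, q ∈ c'.Q → q ∈ (c k).Q := by
      rw [Filter.eventually_all_finite hQ]
      intro q _
      by_cases hq : q ∈ c'.Q
      · obtain ⟨k, hk⟩ := mem_iUnion.1 hq
        filter_upwards [Filter.eventually_ge_atTop k] with l hl
        exact fun _ => (hc hl).2.2.1 hk
      · exact Filter.Eventually.of_forall fun _ h => absurd h hq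
    obtain ⟨k, hk⟩ := hev.exists
    obtain ⟨s, hs, hag⟩ := (h k).2.2.2 e (hee.trans (he k)) Q hQ hQs
    refine ⟨s, hs, fun q hq hqc => ?_⟩
    rw [hag q hq (hk q hq hqc)]
    exact (hgg k q (hk q hq hqc)).symm

/-- lower bounds in the closed poset -/
theorem IsClosed1.lower (hD : IsClosed1 D) {u : ℕ → D} (hu : Antitone u) : ∃ d, ∀ k, d ≤ u k := by
  obtain ⟨d, hd⟩ := hD (range u) (range_nonempty u) (by
    rintro _ ⟨a, rfl⟩ _ ⟨b, rfl⟩ _
    rcases le_total a b with h | h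
    · exact Or.inr (hu h)
    · exact Or.inl (hu h))
    ((Cardinal.le_aleph0_iff_set_countable.2 (countable_range u)).trans
      (Cardinal.aleph0_le_aleph 1))
  exact ⟨d, fun k => hd _ ⟨k, rfl⟩⟩

/-- a partial solution can be extended above its chain with some number -/
theorem Good.growth (hS : Setup (m := m) X f₀ n e₀) (h : Good X f₀ n e₀ d c) :
    ∃ d' ≤ d, ∃ c' ≤ c, Good X f₀ n e₀ d' c' ∧ ∃ j, ∃ x ∈ chain c' j, ∀ y ∈ chain c j,
      Nd.Lt y x := by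
  let A₀ : Set Nd := (fun q => (c.g q).1) '' c.Q
  have hA₀ : A₀.Countable := h.2.2.1.image _
  let A : Set Nd := A₀ ∪ image2 (fun y k => (c.h k, y.2 ∩ Iio (c.h k))) A₀ (Iio c.i)
  have hA : A.Countable := hA₀.union (hA₀.image2 (K1_Iio c.i) _)
  obtain ⟨q, hqX, hqe, hqle, hqA⟩ := hS.large (c.e d) h.1 A hA
  have hqc : q ∉ c.Q := by
    intro hq
    obtain ⟨p, hp, hp1⟩ := h.node hq
    exact hqA p hp (hp1 ▸ Or.inl (mem_image_of_mem _ hq))
  obtain ⟨d', hd', c', hc', hg, hQ⟩ := (h.rep hqle).insert_step (q := q) ⟨hqX, hqe, le_rfl⟩ hqc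
  have hcc : c' ≤ c := hc'.trans (rep_le hqle)
  have hqc' : q ∈ c'.Q := hQ ▸ mem_insert _ _
  obtain ⟨p, hp, hp1⟩ := hg.node hqc'
  refine ⟨d', hd'.trans hqle.1, c', hcc, hg, (c'.g q).2, (c'.g q).1, ⟨q, hqc', rfl, rfl⟩, ?_⟩
  intro y hy
  have hyA : y ∈ A₀ := by
    obtain ⟨r, hr, _, hr2⟩ := hy
    exact ⟨r, hr, hr2⟩
  rw [← hp1]
  have hpA := hqA p hp
  rcases hg.comp (chain_mono hcc _ hy) ⟨q, hqc', rfl, rfl⟩ with hc1 | hc1 | hc1
  · rw [← hp1] at hc1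
    exact absurd (Or.inl (hc1 ▸ hyA)) hpA
  · rwa [← hp1] at hc1
  · exfalso
    rw [← hp1] at hc1
    obtain ⟨⟨k, hk, hk1⟩, _⟩ := q.node p (Finset.mem_sdiff.1 hp).1
    obtain ⟨⟨l, hl, hl1⟩, _⟩ := h.level hy
    have hl2 : c.h l = q.h l := (hqle.2.2 l hl).symm
    have hl3 : l < q.i := hl.trans_le hqle.2.1
    have hkl : k < l := by
      by_contra hkl
      rcases lt_or_eq_of_le (not_lt.1 hkl) with h1 | h1
      · have := q.smono l hl3 k hk h1
        rw [← hk1, ← hl2, ← hl1] at this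
        exact absurd this (not_lt.2 hc1.1.le)
      · rw [← h1, ← hl2, ← hl1] at hk1
        exact absurd hc1.1 (by rw [hk1]; exact lt_irrefl _)
    have hki : k < c.i := hkl.trans hl
    have hk2 : p.1.1 = c.h k := hk1.trans (hqle.2.2 k hki)
    apply hpA
    refine Or.inr ⟨y, hyA, k, hki, ?_⟩
    refine Prod.ext hk2.symm ?_
    show y.2 ∩ Iio (c.h k) = p.1.2
    rw [← hk2]
    exact hc1.2.symm

/-- the height function can be extended above any bound -/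
theorem Good.raise (h : Good X f₀ n e₀ d c) (l : K2) :
    ∃ c' ≤ c, Good X f₀ n e₀ d c' ∧ ∃ k < c'.i, l ≤ c'.h k := by
  classical
  obtain ⟨i', hi'⟩ := K1_ub {c.i} (countable_singleton _)
  have hi'' : c.i < i' := hi' _ rfl
  have hne : {b : K1 | c.i < b}.Nonempty := ⟨i', hi''⟩
  obtain ⟨b, hb, hmin⟩ := WellFounded.has_min (wellFounded_lt (α := K1)) _ hne
  have hb' : ∀ j < b, j < c.i ∨ j = c.i := by
    intro j hj
    by_contra hcon
    push Not at hcon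
    exact hmin j (lt_of_le_of_ne hcon.1 (Ne.symm hcon.2)) hj
  obtain ⟨l', hl'⟩ := K2_ub (insert l (c.h '' Iio c.i)) (((K1_Iio c.i).image _).insert _)
  let c' : Core T m := ⟨b, fun j => if j < c.i then c.h j else l', by
    intro j hj k hk hjk
    rcases hb' k hk with hk' | hk'
    · rw [if_pos hk', if_pos (hjk.trans hk')]
      exact c.smono j (hjk.trans hk') k hk' hjk
    · rw [if_pos (hk' ▸ hjk), if_neg (by rw [hk']; exact lt_irrefl _)]
      exact hl' _ (Or.inr (mem_image_of_mem _ (hk' ▸ hjk))), c.Q, c.g⟩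
  have hle : c' ≤ c := ⟨le_of_lt hb, fun j hj => if_pos hj, subset_rfl, fun _ _ => rfl⟩
  have he : c'.e d ≤ c.e d := e_mono hle le_rfl
  have hg : Good X f₀ n e₀ d c' := h.rep he
  refine ⟨c', hle, hg, c.i, hb, ?_⟩
  show l ≤ if c.i < c.i then c.h c.i else l'
  rw [if_neg (lt_irrefl _)]
  exact (hl' l (Or.inl rfl)).le

/-- the levels of the chain with number `j` are bounded below `(d, c)` -/
def Dead (X : Set (RCond T)) (f₀ : Finset (Nd × ℕ)) (n : ℕ) (e₀ : ECond D) (d : D) (c : Core T m)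
    (j : Fin m) : Prop :=
  ∃ l : K2, ∀ d' ≤ d, ∀ c' ≤ c, Good X f₀ n e₀ d' c' → ∀ x ∈ chain c' j, x.1 < l

theorem Dead.mono {j : Fin m} (h : Dead X f₀ n e₀ d c j) {d' : D} {c' : Core T m} (hd : d' ≤ d)
    (hc : c' ≤ c) : Dead X f₀ n e₀ d' c' j := by
  obtain ⟨l, hl⟩ := h
  exact ⟨l, fun d'' hd'' c'' hc'' => hl d'' (hd''.trans hd) c'' (hc''.trans hc)⟩

/-- not all chains are dead -/
theorem Good.not_all_dead (hS : Setup (m := m) X f₀ n e₀) (h : Good X f₀ n e₀ d c)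
    (hdead : ∀ j, Dead X f₀ n e₀ d c j) : False := by
  classical
  choose l hl using hdead
  obtain ⟨l', hl'⟩ := K2_ub (range l) (countable_range l)
  obtain ⟨c₁, hc₁, hg₁, k₁, hk₁, hlk⟩ := h.raise l'
  -- all levels are values of `c₁.h` below `k₁`
  have hlev : ∀ d' ≤ d, ∀ c' ≤ c₁, Good X f₀ n e₀ d' c' → ∀ j, ∀ x ∈ chain c' j,
      ∃ a < c₁.i, x.1 = c₁.h a := by
    intro d' hd' c' hc' hg' j x hx
    have h1 : x.1 < l' := (hl j d' hd' c' (hc'.trans hc₁) hg' x hx).trans (hl' _ ⟨j, rfl⟩)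
    obtain ⟨⟨a, ha, hxa⟩, _⟩ := hg'.level hx
    have hk₁' : k₁ < c'.i := hk₁.trans_le hc'.1
    have h2 : c'.h k₁ = c₁.h k₁ := hc'.2.1 k₁ hk₁
    have h3 : c'.h a < c'.h k₁ := by
      rw [h2, ← hxa]
      exact h1.trans_le hlk
    have hak : a < k₁ := by
      by_contra hcon
      rcases lt_or_eq_of_le (not_lt.1 hcon) with h4 | h4
      · exact absurd (c'.smono k₁ hk₁' a ha h4) (not_lt.2 h3.le)
      · rw [h4] at h3
        exact lt_irrefl _ h3
    exact ⟨a, hak.trans hk₁, hxa.trans (hc'.2.1 a (hak.trans hk₁))⟩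
  obtain ⟨_, _, _, _, _, j₀, _, _⟩ := h.growth hS
  have hScount : (Iio c₁.i ×ˢ (univ : Set (Fin m))).Countable :=
    (K1_Iio c₁.i).prod (countable_univ)
  obtain ⟨t, ht⟩ := hScount.exists_eq_range ⟨(k₁, j₀), hk₁, mem_univ _⟩
  let W := {w : D × Core T m // Good X f₀ n e₀ w.1 w.2 ∧ w.1 ≤ d ∧ w.2 ≤ c₁}
  let P : K1 × Fin m → Core T m → Prop := fun p c' => ∃ x ∈ chain c' p.2, c₁.h p.1 ≤ x.1
  obtain ⟨s, _, hs⟩ := exists_seq (W := W)
    (fun k w w' => w'.1.1 ≤ w.1.1 ∧ w'.1.2 ≤ w.1.2 ∧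
      (P (t k) w'.1.2 ∨ ∀ d' ≤ w'.1.1, ∀ c' ≤ w'.1.2, Good X f₀ n e₀ d' c' → ¬ P (t k) c')) (by
    intro k w
    by_cases hP : ∃ d' ≤ w.1.1, ∃ c' ≤ w.1.2, Good X f₀ n e₀ d' c' ∧ P (t k) c'
    · obtain ⟨d', hd', c', hc', hg', hP'⟩ := hP
      exact ⟨⟨(d', c'), hg', hd'.trans w.2.2.1, hc'.trans w.2.2.2⟩, hd', hc', Or.inl hP'⟩
    · push Not at hP
      exact ⟨w, le_rfl, le_rfl, Or.inr hP⟩) ⟨(d, c₁), hg₁, le_rfl, le_rfl⟩
  have hd : Antitone fun k => (s k).1.1 := antitone_nat_of_succ_le fun k => (hs k).1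
  have hc : Antitone fun k => (s k).1.2 := antitone_nat_of_succ_le fun k => (hs k).2.1
  obtain ⟨dω, hdω⟩ := hS.closed.lower hd
  obtain ⟨cω, hcω, hgω⟩ := Good.limit hc fun k => ((s k).2.1).mono (hdω k)
  obtain ⟨d', hd', c', hc', hg', j, x, hx, hxy⟩ := hgω.growth hS
  obtain ⟨a, ha, hxa⟩ := hlev d' (hd'.trans ((hdω 0).trans (s 0).2.2.1)) c'
    (hc'.trans ((hcω 0).trans (s 0).2.2.2)) hg' j x hx
  obtain ⟨k, hk⟩ : (a, j) ∈ range t := ht ▸ ⟨ha, mem_univ _⟩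
  rcases (hs k).2.2 with hP | hP
  · rw [hk] at hP
    obtain ⟨y, hy, hay⟩ := hP
    have := (hxy y (chain_mono (hcω (k + 1)) j hy)).1
    rw [hxa] at this
    exact absurd this (not_lt.2 hay)
  · refine hP d' (hd'.trans (hdω (k + 1))) c' (hc'.trans (hcω (k + 1))) hg' ?_
    rw [hk]
    exact ⟨x, hx, hxa.ge⟩

/-- some chain is alive in all extensions -/
theorem Good.exists_alive (hS : Setup (m := m) X f₀ n e₀) (h : Good X f₀ n e₀ d c) :
    ∃ j, ∃ d₂ ≤ d, ∃ c₂ ≤ c, Good X f₀ n e₀ d₂ c₂ ∧ ∀ d' ≤ d₂, ∀ c' ≤ c₂,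
      Good X f₀ n e₀ d' c' → ¬ Dead X f₀ n e₀ d' c' j := by
  classical
  by_contra hcon
  push Not at hcon
  have key : ∀ S : Finset (Fin m), ∃ d₁ ≤ d, ∃ c₁ ≤ c, Good X f₀ n e₀ d₁ c₁ ∧
      ∀ j ∈ S, Dead X f₀ n e₀ d₁ c₁ j := by
    intro S
    induction S using Finset.induction_on with
    | empty => exact ⟨d, le_rfl, c, le_rfl, h, by simp⟩
    | insert j S _ ih =>
      obtain ⟨d₁, hd₁, c₁, hc₁, hg₁, hdead⟩ := ih
      obtain ⟨d', hd', c', hc', hg', hj⟩ := hcon j d₁ hd₁ c₁ hc₁ hg₁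
      refine ⟨d', hd'.trans hd₁, c', hc'.trans hc₁, hg', fun i hi => ?_⟩
      rcases Finset.mem_insert.1 hi with rfl | hi
      · exact hj
      · exact (hdead i hi).mono hd' hc'
  obtain ⟨d₁, _, c₁, _, hg₁, hdead⟩ := key Finset.univ
  exact hg₁.not_all_dead hS fun j => hdead j (Finset.mem_univ j)

/-- splitting -/
theorem Good.split (hbr : ∀ d, ¬ T.HasBranch d) {j : Fin m}
    (h : Good X f₀ n e₀ d c) (halive : ∀ d' ≤ d, ∀ c' ≤ c,
      Good X f₀ n e₀ d' c' → ¬ Dead X f₀ n e₀ d' c' j) :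
    ∃ d' ≤ d, ∃ c₀ ≤ c, ∃ c₁ ≤ c, Good X f₀ n e₀ d' c₀ ∧ Good X f₀ n e₀ d' c₁ ∧
      ∃ x ∈ chain c₀ j, ∃ y ∈ chain c₁ j, ¬ Nd.Comp x y := by
  by_contra hcon
  push Not at hcon
  apply hbr d
  refine ⟨fun d' α Z => d' ≤ d ∧ ∃ c' ≤ c, Good X f₀ n e₀ d' c' ∧ ∃ x ∈ chain c' j,
    α ≤ x.1 ∧ Z = x.2 ∩ Iio α, ?_, ?_, ?_, ?_⟩
  · rintro d' α Z ⟨hd', c', hc', hg', x, hx, hα, rfl⟩
    exact ⟨hd', T.down _ _ _ _ hα (hg'.level hx).2⟩
  · rintro d' d'' α Z hd'' ⟨hd', c', hc', hg', x, hx, hα, rfl⟩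
    exact ⟨hd''.trans hd', c', hc', hg'.mono hd'', x, hx, hα, rfl⟩
  · rintro d' α β Z Z' hβ ⟨hd', c', hc', hg', x, hx, hα, rfl⟩ ⟨_, c'', hc'', hg'', y, hy, hα', rfl⟩
    have h1 : ∀ γ : K2, β ≤ γ → ∀ S : Set K2, S ∩ Iio γ ∩ Iio β = S ∩ Iio β := by
      intro γ hγ S
      rw [inter_assoc, Iio_inter_Iio, inf_eq_right.2 hγ]
    rw [h1 α hβ]
    rcases hcon d' hd' c' hc' c'' hc'' hg' hg'' x hx y hy with hxy | hxy | hxy
    · rw [hxy]
    · rw [hxy.2, h1 _ (hβ.trans hα)]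
    · rw [hxy.2, h1 _ hα']
  · intro d' hd' α
    have := halive d' hd' c le_rfl (h.mono hd')
    unfold Dead at this
    push Not at this
    obtain ⟨d'', hd'', c'', hc'', hg'', x, hx, hα⟩ := this α
    exact ⟨d'', hd'', _, hd''.trans hd', c'', hc'', hg'', x, hx, hα, rfl⟩

end

/-- fusion along the complete binary tree: the children of `n` are `2 n + 1` and `2 n + 2` -/
theorem fusion {D C : Type} [Preorder D] [Preorder C] (F : D → C → Prop)
    (mono : ∀ d d' c, d' ≤ d → F d c → F d' c) (R : C → C → Prop) (d₂ : D) (c₂ : C) (h₂ : F d₂ c₂)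
    (split : ∀ d ≤ d₂, ∀ c ≤ c₂, F d c → ∃ d' ≤ d, ∃ c₀ ≤ c, ∃ c₁ ≤ c, F d' c₀ ∧ F d' c₁ ∧ R c₀ c₁) :
    ∃ (u : ℕ → D) (c : ℕ → C), Antitone u ∧ u 0 ≤ d₂ ∧ ∀ n, F (u n) (c n) ∧ c n ≤ c₂ ∧
      c (2 * n + 1) ≤ c n ∧ c (2 * n + 2) ≤ c n ∧ R (c (2 * n + 1)) (c (2 * n + 2)) := by
  classical
  let W := {w : D × (ℕ → C) // w.1 ≤ d₂ ∧ ∀ k, F w.1 (w.2 k) ∧ w.2 k ≤ c₂}
  obtain ⟨s, _, hs⟩ := exists_seq (W := W)
    (fun n w w' => w'.1.1 ≤ w.1.1 ∧ (∀ k, k ≠ 2 * n + 1 → k ≠ 2 * n + 2 → w'.1.2 k = w.1.2 k) ∧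
      w'.1.2 (2 * n + 1) ≤ w.1.2 n ∧ w'.1.2 (2 * n + 2) ≤ w.1.2 n ∧
      R (w'.1.2 (2 * n + 1)) (w'.1.2 (2 * n + 2))) (by
    intro n w
    obtain ⟨d', hd', c₀, hc₀, c₁, hc₁, hF₀, hF₁, hR⟩ :=
      split w.1.1 w.2.1 (w.1.2 n) (w.2.2 n).2 (w.2.2 n).1
    let c' : ℕ → C := fun k => if k = 2 * n + 1 then c₀ else if k = 2 * n + 2 then c₁ else w.1.2 k
    have h0 : c' (2 * n + 1) = c₀ := if_pos rfl
    have h1 : c' (2 * n + 2) = c₁ := by simp [c']
    have h2 : ∀ k, k ≠ 2 * n + 1 → k ≠ 2 * n + 2 → c' k = w.1.2 k := fun k hk hk' => by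
      simp [c', hk, hk']
    refine ⟨⟨(d', c'), hd'.trans w.2.1, fun k => ?_⟩, hd', h2, ?_, ?_, ?_⟩
    · show F d' (c' k) ∧ c' k ≤ c₂
      by_cases hk : k = 2 * n + 1
      · subst hk
        rw [h0]
        exact ⟨hF₀, hc₀.trans (w.2.2 n).2⟩
      · by_cases hk' : k = 2 * n + 2
        · subst hk'
          rw [h1]
          exact ⟨hF₁, hc₁.trans (w.2.2 n).2⟩
        · rw [h2 k hk hk']
          exact ⟨mono _ _ _ hd' (w.2.2 k).1, (w.2.2 k).2⟩
    · show c' _ ≤ _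
      rw [h0]
      exact hc₀
    · show c' _ ≤ _
      rw [h1]
      exact hc₁
    · show R (c' _) (c' _)
      rw [h0, h1]
      exact hR) ⟨(d₂, fun _ => c₂), le_rfl, fun _ => ⟨h₂, le_rfl⟩⟩
  have hstab : ∀ k l, k ≤ 2 * l → ∀ l' ≥ l, (s l').1.2 k = (s l).1.2 k := by
    intro k l hkl l' hl'
    induction l', hl' using Nat.le_induction with
    | base => rfl
    | succ i hi ih =>
      rw [(hs i).2.1 k (by omega) (by omega), ih]
  refine ⟨fun k => (s k).1.1, fun k => (s k).1.2 k, antitone_nat_of_succ_le fun k => (hs k).1,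
    (s 0).2.1, fun k => ⟨((s k).2.2 k).1, ((s k).2.2 k).2, ?_, ?_, ?_⟩⟩
  · show (s (2 * k + 1)).1.2 (2 * k + 1) ≤ _
    rw [hstab (2 * k + 1) (k + 1) (by omega) (2 * k + 1) (by omega)]
    exact (hs k).2.2.1
  · show (s (2 * k + 2)).1.2 (2 * k + 2) ≤ _
    rw [hstab (2 * k + 2) (k + 1) (by omega) (2 * k + 2) (by omega)]
    exact (hs k).2.2.2.1
  · show R ((s (2 * k + 1)).1.2 (2 * k + 1)) ((s (2 * k + 2)).1.2 (2 * k + 2))
    rw [hstab (2 * k + 1) (k + 1) (by omega) (2 * k + 1) (by omega),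
      hstab (2 * k + 2) (k + 1) (by omega) (2 * k + 2) (by omega)]
    exact (hs k).2.2.2.2

/-- the path of `f` in the complete binary tree -/
def path (f : ℕ → Bool) : ℕ → ℕ
  | 0 => 0
  | k + 1 => if f k then 2 * path f k + 2 else 2 * path f k + 1

theorem path_congr {f g : ℕ → Bool} {k : ℕ} (h : ∀ i < k, f i = g i) : path f k = path g k := by
  induction k with
  | zero => rfl
  | succ k ih =>
    simp only [path]
    rw [ih fun i hi => h i (by omega), h k (by omega)]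

/-- the main lemma -/
theorem f1 : F1Statement := by
  classical
  intro D _ hD _ hcard T hbr X f₀ n m e₀
  by_contra hcon
  push Not at hcon
  have hS : Setup (m := m) X f₀ n e₀ := by
    refine ⟨hD, fun e he A hA => ?_, fun e he Q hQ hQs => ?_⟩
    · obtain ⟨q, hq1, hq2, hq3, hq4⟩ := (hcon e he).1 A hA
      exact ⟨q, hq1, hq2, hq3, hq4⟩
    · exact (hcon e he).2 Q hQ fun q hq => hQs hq
  obtain ⟨g₀, _⟩ := hS.solv e₀ le_rfl ∅ finite_empty (empty_subset _)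
  have hg₀ : Good X f₀ n e₀ e₀.d (⟨e₀.i, e₀.h, e₀.smono, ∅, g₀⟩ : Core T m) := by
    refine ⟨le_rfl, empty_subset _, countable_empty, fun e he Q hQ hQs => ?_⟩
    obtain ⟨s, hs⟩ := hS.solv e he Q hQ hQs
    exact ⟨s, hs, fun q _ hq => absurd hq (notMem_empty q)⟩
  obtain ⟨j, d₂, hd₂, c₂, hc₂, hg₂, halive⟩ := hg₀.exists_alive hS
  obtain ⟨u, c, hu, hu0, hc⟩ := fusion (fun d c => Good X f₀ n e₀ d c)
    (fun d d' c hd h => Good.mono h hd)
    (fun c₀ c₁ => ∃ x ∈ chain c₀ j, ∃ y ∈ chain c₁ j, ¬ Nd.Comp x y) d₂ c₂ hg₂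
    (fun d hd c hc hg => hg.split hbr fun d' hd' c' hc' hg' =>
      halive d' (hd'.trans hd) c' (hc'.trans hc) hg')
  choose hcg hcc hcl hcr x hx y hy hxy using hc
  obtain ⟨dω, hdω⟩ := hD.lower hu
  obtain ⟨α, hα⟩ := K2_ub (range (fun k => (x k).1) ∪ range (fun k => (y k).1))
    ((countable_range _).union (countable_range _))
  obtain ⟨d', hd', L, hL, hUL⟩ := T.small dω α
  -- the sets `Z f`
  have hZ : ∀ f : ℕ → Bool, ∃ Z ∈ L, ∀ k, ∀ z ∈ chain (c (path f k)) j, z.1 < α →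
      z.2 = Z ∩ Iio z.1 := by
    intro f
    have hanti : Antitone fun k => c (path f k) := by
      refine antitone_nat_of_succ_le fun k => ?_
      simp only [path]
      split_ifs
      · exact hcr _
      · exact hcl _
    have hgk : ∀ k, Good X f₀ n e₀ d' (c (path f k)) := fun k =>
      (hcg (path f k)).mono (hd'.trans (hdω _))
    obtain ⟨cf, hcf, hgf⟩ := Good.limit hanti hgk
    have hd₂' : d' ≤ d₂ := hd'.trans ((hdω 0).trans hu0)
    have := halive d' hd₂' cf ((hcf 0).trans (hcc _)) hgf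
    unfold Dead at this
    push Not at this
    obtain ⟨d'', hd'', c'', hc'', hg'', w, hw, hαw⟩ := this α
    refine ⟨w.2 ∩ Iio α, hUL d'' hd'' _ (T.down _ _ _ _ hαw (hg''.level hw).2), ?_⟩
    intro k z hz hzα
    have hzw : z.1 < w.1 := hzα.trans_le hαw
    have h1 : w.2 ∩ Iio α ∩ Iio z.1 = w.2 ∩ Iio z.1 := by
      rw [inter_assoc, Iio_inter_Iio, inf_eq_right.2 hzα.le]
    rw [h1]
    rcases hg''.comp (chain_mono (hc''.trans (hcf k)) j hz) hw with h2 | h2 | h2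
    · rw [h2] at hzw
      exact absurd hzw (lt_irrefl _)
    · exact h2.2
    · exact absurd h2.1 (not_lt.2 hzw.le)
  choose Z hZL hZ using hZ
  have key : ∀ f g : ℕ → Bool, ∀ k, (∀ i < k, f i = g i) → f k = false → g k = true →
      Z f ≠ Z g := by
    intro f g k hfg hf hg hZZ
    have hp : path g k = path f k := (path_congr hfg).symm
    set N := path f k with hN
    have hpf : path f (k + 1) = 2 * N + 1 := by
      rw [path, hf, ← hN]
      rfl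
    have hpg : path g (k + 1) = 2 * N + 2 := by
      rw [path, hg, hp]
      rfl
    have h1 := hZ f (k + 1) (x N) (hpf ▸ hx N) (hα _ (Or.inl ⟨N, rfl⟩))
    have h2 := hZ g (k + 1) (y N) (hpg ▸ hy N) (hα _ (Or.inr ⟨N, rfl⟩))
    rw [← hZZ] at h2
    apply hxy N
    rcases lt_trichotomy (x N).1 (y N).1 with h3 | h3 | h3
    · refine Or.inr (Or.inl ⟨h3, ?_⟩)
      rw [h1, h2, inter_assoc, Iio_inter_Iio, inf_eq_right.2 h3.le]
    · exact Or.inl (Prod.ext h3 (by rw [h1, h2, h3]))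
    · refine Or.inr (Or.inr ⟨h3, ?_⟩)
      rw [h1, h2, inter_assoc, Iio_inter_Iio, inf_eq_right.2 h3.le]
  have hinj : Function.Injective fun f : ℕ → Bool => (⟨Z f, hZL f⟩ : L) := by
    intro f g hfg
    have hfg' : Z f = Z g := congrArg Subtype.val hfg
    by_contra hne
    have hex : ∃ k, f k ≠ g k := Function.ne_iff.1 hne
    have h1 : ∀ i < Nat.find hex, f i = g i := fun i hi => not_not.1 (Nat.find_min hex hi)
    have h2 := Nat.find_spec hex
    cases hf : f (Nat.find hex) with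
    | false =>
      cases hg : g (Nat.find hex) with
      | false => exact h2 (hf.trans hg.symm)
      | true => exact key f g _ h1 hf hg hfg'
    | true =>
      cases hg : g (Nat.find hex) with
      | false => exact key g f _ (fun i hi => (h1 i hi).symm) hg hf hfg'.symm
      | true => exact h2 (hf.trans hg.symm)
  exact absurd ((Cardinal.mk_le_of_injective hinj).trans hL) (not_le.2 hcard)

end Pool.Agent.Helper84.Kauf
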